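import Pool.Agent.N516.SC.Rec

/-!
# `MP_dce662_co`: the excess of shortest cycle covers is unbounded in the family `F`

The definitions (`Pointed`, `glue`, `Admissible`, `IsSnark`, `IndexAtLeastFive`, `scc`, …) are in
`Pool.Agent.N516.SC.Defs`.
-/

set_option autoImplicit false

namespace Pool.Agent.Results.MP_dce662_co.UnboundedExcess

open Pool.Agent.N516.SC

/-- For every `c` there is a graph `G = glue D` of the family `F` (three snarks of excessive index at
least five) with `scc(G) ≥ 4/3 |E(G)| + c`; more precisely, for every `j` there is one on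
`108 · 3 ^ j - 2` vertices with `scc(G) ≥ 4/3 |E(G)| + 3 ^ j`. The number `scc(G)` is finite. -/
theorem result :
    (∀ c : ℕ, ∃ D : Fin 3 → Pool.Agent.N516.SC.Pointed, Admissible D ∧ scc (glue D) ≠ ⊤ ∧
      ((4 * (glue D).edgeSet.ncard + 3 * c : ℕ) : ℕ∞) ≤ 3 * scc (glue D)) ∧
    (∀ j : ℕ, ∃ D : Fin 3 → Pool.Agent.N516.SC.Pointed, Admissible D ∧ scc (glue D) ≠ ⊤ ∧
      Fintype.card (W D) + 2 = 108 * 3 ^ j ∧
      ((4 * (glue D).edgeSet.ncard + 3 * 3 ^ j : ℕ) : ℕ∞) ≤ 3 * scc (glue D)) := by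
  have h2 : ∀ j : ℕ, ∃ D : Fin 3 → Pool.Agent.N516.SC.Pointed, Admissible D ∧ scc (glue D) ≠ ⊤ ∧
      Fintype.card (W D) + 2 = 108 * 3 ^ j ∧
      ((4 * (glue D).edgeSet.ncard + 3 * 3 ^ j : ℕ) : ℕ∞) ≤ 3 * scc (glue D) := by
    intro j
    refine ⟨fun _ => rc (j + 1), fun _ => rc_snark (j + 1), scc_fin _ (rc_nice (j + 2)).1, ?_,
      scc_bound j⟩
    have := rc_card (j + 2)
    change Fintype.card (W fun _ => rc (j + 1)) + 2 = _ at this
    rw [this]
    ring
  refine ⟨fun c => ?_, h2⟩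
  obtain ⟨D, h1, h3, -, h4⟩ := h2 c
  refine ⟨D, h1, h3, le_trans ?_ h4⟩
  have : c < 3 ^ c := Nat.lt_pow_self (by norm_num)
  exact_mod_cast (by omega : 4 * (glue D).edgeSet.ncard + 3 * c ≤
    4 * (glue D).edgeSet.ncard + 3 * 3 ^ c)

end Pool.Agent.Results.MP_dce662_co.UnboundedExcess
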